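import Mathlib

/-! Over every field of characteristic two, rank and symmetric rank of order-three symmetric
tensors differ: the tensor with `T(i|j|k) = 1` for `{i, j, k} = {0, 1, 2}` has rank at most five
and symmetric rank at least six. -/

set_option autoImplicit false

namespace Pool.Agent.Results.MP_351138_al.CharTwo

/-- `T` is symmetric: invariant under all permutations of the three indices. -/
def IsSymm {F I : Type} (T : I → I → I → F) : Prop :=
  ∀ i j k, T i j k = T j i k ∧ T i j k = T i k j ∧ T i j k = T k j i ∧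
    T i j k = T j k i ∧ T i j k = T k i j

/-- The rank: the least `r` such that `T` is a sum of `r` simple tensors (`⊤` if there is none). -/
noncomputable def rank {F I : Type} [Field F] (T : I → I → I → F) : ℕ∞ :=
  sInf {r : ℕ∞ | ∃ n : ℕ, r = n ∧ ∃ a b c : Fin n → I → F,
    ∀ i j k, T i j k = ∑ s, a s i * b s j * c s k}

/-- The symmetric rank: the least `r` such that `T` is a linear combination of `r` symmetric
simple tensors (`⊤` if there is none). -/
noncomputable def srank {F I : Type} [Field F] (T : I → I → I → F) : ℕ∞ :=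
  sInf {r : ℕ∞ | ∃ n : ℕ, r = n ∧ ∃ (l : Fin n → F) (v : Fin n → I → F),
    ∀ i j k, T i j k = ∑ s, l s * (v s i * v s j * v s k)}

def T0 (F : Type) [Field F] (i j k : Fin 3) : F := if i ≠ j ∧ i ≠ k ∧ j ≠ k then 1 else 0

def A : Fin 5 → Fin 3 → ZMod 2 := ![![1,0,0], ![0,0,1], ![1,0,1], ![0,1,1], ![1,1,1]]
def B : Fin 5 → Fin 3 → ZMod 2 := ![![0,1,0], ![1,1,1], ![0,1,1], ![1,0,1], ![0,0,1]]
def C : Fin 5 → Fin 3 → ZMod 2 := ![![1,1,0], ![0,1,1], ![1,1,1], ![0,0,1], ![1,0,1]]

theorem dec : ∀ i j k : Fin 3, (if i ≠ j ∧ i ≠ k ∧ j ≠ k then 1 else 0 : ZMod 2) =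
    ∑ s, A s i * B s j * C s k := by decide

theorem rank_le (F : Type) [Field F] [CharP F 2] : rank (T0 F) ≤ 5 := by
  apply sInf_le
  let φ : ZMod 2 →+* F := ZMod.castHom (dvd_refl 2) F
  refine ⟨5, rfl, fun s i => φ (A s i), fun s i => φ (B s i), fun s i => φ (C s i), ?_⟩
  intro i j k
  have h := congrArg φ (dec i j k)
  rw [map_sum] at h
  simp only [map_mul] at h
  rw [← h, T0]
  split_ifs <;> simp

theorem no_small (K : Type) [Field K] [CharP K 2] [IsAlgClosed K] (n : ℕ) (hn : n < 6)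
    (l : Fin n → K) (v : Fin n → Fin 3 → K)
    (h : ∀ i j k, T0 K i j k = ∑ s, l s * (v s i * v s j * v s k)) : False := by
  let m : Fin n → Fin 6 → K := fun s =>
    ![v s 0 * v s 0, v s 1 * v s 1, v s 2 * v s 2, v s 0 * v s 1, v s 0 * v s 2, v s 1 * v s 2]
  let L : (Fin 6 → K) →ₗ[K] (Fin n → K) := Matrix.toLin' (Matrix.of m)
  have hker : LinearMap.ker L ≠ ⊥ := LinearMap.ker_ne_bot_of_finrank_lt (by simpa using hn)
  obtain ⟨q, hq, hq0⟩ := (Submodule.ne_bot_iff _).1 hker
  have hq' : ∀ s, v s 0 * v s 0 * q 0 + v s 1 * v s 1 * q 1 + v s 2 * v s 2 * q 2 +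
      v s 0 * v s 1 * q 3 + v s 0 * v s 2 * q 4 + v s 1 * v s 2 * q 5 = 0 := by
    intro s
    have := congrFun (LinearMap.mem_ker.1 hq) s
    simpa [L, m, Matrix.toLin'_apply, Matrix.mulVec, dotProduct, Fin.sum_univ_six] using this
  have key : ∀ t : Fin 3, T0 K 0 0 t * q 0 + T0 K 1 1 t * q 1 + T0 K 2 2 t * q 2 +
      T0 K 0 1 t * q 3 + T0 K 0 2 t * q 4 + T0 K 1 2 t * q 5 = 0 := by
    intro t
    simp only [h, Finset.sum_mul, ← Finset.sum_add_distrib]
    apply Finset.sum_eq_zero
    intro s _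
    linear_combination (l s * v s t) * hq' s
  have h5 : q 5 = 0 := by simpa [T0] using key 0
  have h4 : q 4 = 0 := by simpa [T0] using key 1
  have h3 : q 3 = 0 := by simpa [T0] using key 2
  obtain ⟨a, ha⟩ := IsAlgClosed.exists_pow_nat_eq (q 0) (n := 2) (by norm_num)
  obtain ⟨b, hb⟩ := IsAlgClosed.exists_pow_nat_eq (q 1) (n := 2) (by norm_num)
  obtain ⟨c, hc⟩ := IsAlgClosed.exists_pow_nat_eq (q 2) (n := 2) (by norm_num)
  have h2 : (2 : K) = 0 := by exact_mod_cast CharP.cast_eq_zero K 2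
  have hl : ∀ s, a * v s 0 + b * v s 1 + c * v s 2 = 0 := by
    intro s
    apply pow_eq_zero_iff (n := 2) (by norm_num) |>.1
    have := hq' s
    rw [h3, h4, h5, ← ha, ← hb, ← hc] at this
    linear_combination this + (a * v s 0 * (b * v s 1) + a * v s 0 * (c * v s 2) +
      b * v s 1 * (c * v s 2)) * h2
  have key2 : ∀ t u : Fin 3, a * T0 K 0 t u + b * T0 K 1 t u + c * T0 K 2 t u = 0 := by
    intro t u
    simp only [h, Finset.mul_sum, ← Finset.sum_add_distrib]
    apply Finset.sum_eq_zero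
    intro s _
    linear_combination (l s * v s t * v s u) * hl s
  have ha0 : a = 0 := by simpa [T0] using key2 1 2
  have hb0 : b = 0 := by simpa [T0] using key2 0 2
  have hc0 : c = 0 := by simpa [T0] using key2 0 1
  apply hq0
  funext t
  fin_cases t
  · simp [← ha, ha0]
  · simp [← hb, hb0]
  · simp [← hc, hc0]
  · exact h3
  · exact h4
  · exact h5

theorem srank_ge (F : Type) [Field F] [CharP F 2] : 6 ≤ srank (T0 F) := by
  apply le_sInf
  rintro _ ⟨n, rfl, l, v, h⟩
  by_contra hn
  have hn' : n < 6 := by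
    rw [not_le] at hn
    exact_mod_cast hn
  let φ := algebraMap F (AlgebraicClosure F)
  refine no_small (AlgebraicClosure F) n hn' (fun s => φ (l s)) (fun s i => φ (v s i)) ?_
  intro i j k
  have h1 := congrArg φ (h i j k)
  rw [map_sum] at h1
  simp only [map_mul] at h1
  rw [← h1, T0, T0]
  split_ifs <;> simp

/-- Over every field `F` of characteristic two there is a symmetric `3 × 3 × 3` tensor of rank at
most five and symmetric rank at least six; so its rank and symmetric rank differ. -/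
theorem result (F : Type) [Field F] [CharP F 2] :
    ∃ T : Fin 3 → Fin 3 → Fin 3 → F, IsSymm T ∧ rank T ≤ 5 ∧ 6 ≤ srank T ∧ rank T ≠ srank T := by
  refine ⟨T0 F, ?_, rank_le F, srank_ge F, ?_⟩
  · intro i j k
    simp only [T0]
    refine ⟨?_, ?_, ?_, ?_, ?_⟩ <;> (congr 1; apply propext; constructor <;> rintro ⟨a, b, c⟩ <;>
      refine ⟨?_, ?_, ?_⟩ <;> omega)
  · intro h
    have := (srank_ge F).trans (h ▸ rank_le F)
    exact absurd this (by decide)

end Pool.Agent.Results.MP_351138_al.CharTwo
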